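import Pool.Agent.Helper91.VZ.Key
import Pool.Agent.Helper66.ML.Sound

/-!
Soundness of the checker.
-/

namespace Pool.Agent.Helper91.VZ

open Pool.Agent.Helper44.Idg (Gm Cm)
open Pool.Agent.Helper66.IL
open Pool.Agent.Helper66.ML (pc hd mkc ln code code_n code_inj vws kd dd dv mem_vws_self
  mem_vws_l mem_vws_r view_move view_size cmv_view cdl_view tau tau_nonneg tau_mono P_nil P_ee
  P_add')

/-- the dictionary is sound for branches with less than `N` vertices -/
def Gd (d : Dc) (N : ℕ) : Prop := ∀ (k l : ℕ) (a : AB), G k l a → (er a).size < N →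
  ∀ j : ℕ, val d j k l a < INF → pg.P 48 (tau j) {(er a, .e)} 0 (val d j k l a : ℤ)

theorem cv_n (d : Dc) (j h kx lx ky ly : ℕ) (x y : AB) :
    cv d j (.n h kx lx ky ly x y) = val d j kx lx x + val d j ky ly y := rfl

theorem er_n (h kx lx ky ly : ℕ) (x y : AB) :
    er (.n h kx lx ky ly x y) = .n (mk h) (er x) (er y) := rfl

theorem chP {d : Dc} {N j : ℕ} (h : Gd d N) {x : AB} (ho : ok x) (hx : (er x).size ≤ N)
    (hv : cv d j x < INF) : pg.P 48 (tau j) (ch (er x)) 0 (cv d j x : ℤ) := by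
  cases x with
  | e => exact P_nil _
  | n h' kx lx ky ly x y =>
    rw [cv_n] at hv ⊢
    rw [er_n] at hx ⊢
    simp only [MB.size] at hx
    have h1 := h _ _ x ho.2.1 (by omega) j (by omega)
    have h2 := h _ _ y ho.2.2 (by omega) j (by omega)
    rw [ch_n]
    push_cast
    exact P_add' h1 h2

/-- a view of a vertex with annotated branches -/
structure AV (b c : AB) (m : Bool) (x y z : AB) : Prop where
  hx : ok x
  hy : ok y
  hz : ok z
  mem : (m, er x, er y, er z) ∈ vws (er c) (er b)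

theorem kvP {d : Dc} {N j : ℕ} (h : Gd d N) {m : Bool} {x y c : AB} (hx : ok x) (hy : ok y)
    (hc : ok c) (hs : (er x).size + (er y).size + (er c).size ≤ N) (hv : kv d j x y c < INF) :
    pg.P 48 (tau j) (kd (m, er x, er y, er c)) 0 (kv d j x y c : ℤ) := by
  have e : kv d j x y c = cv d j x + cv d j y + cv d j c := rfl
  rw [e] at hv ⊢
  push_cast
  exact P_add' (P_add' (chP h hx (by omega) (by omega)) (chP h hy (by omega) (by omega)))
    (chP h hc (by omega) (by omega))

theorem AV.size {b c : AB} {m : Bool} {x y z : AB} (h : AV b c m x y z) :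
    (er x).size + (er y).size + (er z).size + 1 = (er b).size + (er c).size :=
  view_size h.mem

theorem pv_view {d : Dc} {j : ℕ} : ∀ (b : AB) (i kc lc : ℕ) (c : AB), ok b → G kc lc c →
    pv d j b i kc lc c < INF → ∃ m x y z, AV b c m x y z ∧ pv d j b i kc lc c = kv d j x y z := by
  intro b
  induction b with
  | e => intro i kc lc c _ _ h; exact absurd h (lt_irrefl _)
  | n h kx lx ky ly x y ihx ihy =>
    intro i kc lc c hb hc hv
    obtain ⟨hh, hx, hy⟩ := hb
    have hx' : G kx lx x := hx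
    have hy' : G ky ly y := hy
    cases i with
    | zero => exact ⟨mk h, x, y, c, ⟨hx'.2.2, hy'.2.2, hc.2.2, mem_vws_self _ _ _ _⟩, rfl⟩
    | succ i =>
      have e : pv d j (.n h kx lx ky ly x y) (i + 1) kc lc c = Bool.rec (motive := fun _ => ℕ)
          (stp h kx lx kc lc x c (pv d j y (Nat.sub i (Nat.div lx 3))))
          (stp h ky ly kc lc y c (pv d j x i))
          (Nat.ble (Nat.succ (Nat.mul 3 (Nat.succ i))) lx) := rfl
      rw [e] at hv ⊢
      cases hb : Nat.ble (Nat.succ (Nat.mul 3 (Nat.succ i))) lx with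
      | true =>
        rw [hb] at hv
        simp only [stp_eq] at hv ⊢
        obtain ⟨m', x', y', z', h1, h2⟩ := ihx i _ _ _ hx'.2.2 (G_mk hh hy' hc) hv
        exact ⟨m', x', y', z', ⟨h1.hx, h1.hy, h1.hz, mem_vws_l h1.mem⟩, h2⟩
      | false =>
        rw [hb] at hv
        simp only [stp_eq] at hv ⊢
        obtain ⟨m', x', y', z', h1, h2⟩ := ihy _ _ _ _ hy'.2.2 (G_mk hh hx' hc) hv
        exact ⟨m', x', y', z', ⟨h1.hx, h1.hy, h1.hz, mem_vws_r h1.mem⟩, h2⟩

/-- a move in a closed branch with a bound -/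
theorem pv_move {d : Dc} {N j : ℕ} (h : Gd d N) {i : ℕ} {b : AB} (ho : ok b)
    (hb : (er b).size ≤ N) (hv : pv d j b i 0 1 .e < INF) :
    ∃ F, pg.mv {(er b, .e)} F ∧ pg.P 48 (tau j) F 0 (pv d j b i 0 1 .e : ℤ) := by
  obtain ⟨m, x, y, z, h1, h2⟩ := pv_view b i 0 1 .e ho G_e hv
  obtain ⟨F, h3, h4⟩ := view_move h1.mem
  have h5 := h1.size
  simp only [er, MB.size] at h5
  refine ⟨F, h3, P_congr h4 (PEq.refl _) ?_⟩
  rw [h2] at hv ⊢
  exact kvP h h1.hx h1.hy h1.hz (by omega) hv

theorem rv_move {d : Dc} {N j : ℕ} (h : Gd d N) {s i : ℕ} {x : AB} (ho : ok x)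
    (hb : (er x).size ≤ N) (hv : rv d j s i x < INF) :
    ∃ Z, pg.mv (ch (er x)) Z ∧ pg.P 48 (tau j) Z 0 (rv d j s i x : ℤ) := by
  cases x with
  | e => exact absurd hv (lt_irrefl _)
  | n h' ka la kb lb a b =>
    rw [er_n] at hb ⊢
    simp only [MB.size] at hb
    obtain ⟨-, ha, hb'⟩ := ho
    have ha' : G ka la a := ha
    have hb'' : G kb lb b := hb'
    have e0 : ch (.n (mk h') (er a) (er b)) = {(er a, .e)} + {(er b, .e)} := by
      rw [ch_n]; rfl
    rw [e0]
    have e1 : rv d j s i (.n h' ka la kb lb a b) = Bool.rec (motive := fun _ => ℕ)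
        (val d j ka la a + pv d j b i 0 1 .e) (pv d j a i 0 1 .e + val d j kb lb b)
        (Nat.beq s 0) := rfl
    rw [e1] at hv ⊢
    cases hs : Nat.beq s 0 with
    | true =>
      rw [hs] at hv
      change pv d j a i 0 1 .e + val d j kb lb b < INF at hv
      show ∃ Z, _ ∧ pg.P 48 (tau j) Z 0 ((pv d j a i 0 1 .e + val d j kb lb b : ℕ) : ℤ)
      obtain ⟨F, h1, h2⟩ := pv_move (j := j) h (i := i) ha'.2.2 (by omega) (by omega)
      have h0 : pg.mv ({(er a, .e)} + {(er b, .e)}) (F + {(er b, .e)}) :=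
        Cm.mv_add.mpr (Or.inl ⟨F, h1, rfl⟩)
      refine ⟨F + {(er b, .e)}, h0, ?_⟩
      push_cast
      exact P_add' h2 (h _ _ b hb'' (by omega) j (by omega))
    | false =>
      rw [hs] at hv
      change val d j ka la a + pv d j b i 0 1 .e < INF at hv
      show ∃ Z, _ ∧ pg.P 48 (tau j) Z 0 ((val d j ka la a + pv d j b i 0 1 .e : ℕ) : ℤ)
      obtain ⟨F, h1, h2⟩ := pv_move (j := j) h (i := i) hb''.2.2 (by omega) (by omega)
      have h0 : pg.mv ({(er a, .e)} + {(er b, .e)}) ({(er a, .e)} + F) :=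
        Cm.mv_add.mpr (Or.inr ⟨F, h1, rfl⟩)
      refine ⟨{(er a, .e)} + F, h0, ?_⟩
      push_cast
      exact P_add' (h _ _ a ha' (by omega) j (by omega)) h2

theorem ne_false {k l : ℕ} {a : AB} (h : G k l a) : (er a).ne = true ↔ Nat.beq k 0 = false := by
  obtain ⟨rfl, -, -⟩ := h
  constructor
  · intro h1
    cases h2 : Nat.beq (code (er a)) 0 with
    | false => rfl
    | true =>
      have := Pool.Agent.Helper66.ML.code_zero (Nat.eq_of_beq_eq_true h2)
      rw [this] at h1
      exact absurd h1 (by simp [MB.ne])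
  · intro h1
    cases h2 : er a with
    | n _ _ _ => rfl
    | e =>
      rw [h2] at h1
      exact absurd h1 (by decide +kernel)

theorem ne_eq {k l : ℕ} {a : AB} (h : G k l a) : (er a).ne = !(Nat.beq k 0) := by
  have h1 := ne_false h
  cases h2 : Nat.beq k 0 with
  | false => exact h1.mpr h2
  | true =>
    cases h3 : (er a).ne with
    | false => rfl
    | true =>
      rw [h1.mp h3] at h2
      exact absurd h2 (by simp)

theorem lwk_eq {kx lx ky ly kc lc : ℕ} {x y c : AB} (hx : G kx lx x) (hy : G ky ly y)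
    (hc : G kc lc c) : lwk kx ky kc = lw (er x).ne (er y).ne (er c).ne := by
  rw [ne_eq hx, ne_eq hy, ne_eq hc]
  unfold lwk
  cases Nat.beq kx 0 <;> cases Nat.beq ky 0 <;> cases Nat.beq kc 0 <;> rfl

theorem rp2_eq (d : Dc) (j w : ℕ) (x y c : AB) (u i : ℕ) : rp2 d j w x y c u i =
    Bool.rec (motive := fun _ => Bool)
      (Bool.rec (motive := fun _ => Bool)
        (Nat.ble (cv d j x + cv d j y + rv d j (Nat.land u 1) i c + 96) w)
        (Nat.ble (cv d j x + rv d j (Nat.land u 1) i y + cv d j c + 96) w)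
        (Nat.ble u 3))
      (Nat.ble (rv d j (Nat.land u 1) i x + cv d j y + cv d j c + 96) w)
      (Nat.ble u 1) := rfl

/-- the checked condition for the replies at a vertex -/
theorem rpl_sound {d : Dc} {N j w : ℕ} (h : Gd d N) {m : Bool} {x y c : AB} (hx : ok x)
    (hy : ok y) (hz : ok c) (hs : (er x).size + (er y).size + (er c).size < N) {r : ℕ}
    (hw : w + 3 * j < INF) (hc : rpl d j w x y c r = true) :
    pg.R 48 (tau j) (kd (m, er x, er y, er c)) 0 ((w : ℤ) - 48) := by
  have e : rpl d j w x y c r = Nat.rec (motive := fun _ => Bool)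
    (Nat.ble (kv d j x y c + 48) (w + 3 * j))
    (fun u _ => rp2 d j w x y c u (Nat.div r 8)) (Nat.mod r 8) := rfl
  rw [e] at hc
  cases hr : Nat.mod r 8 with
  | zero =>
    rw [hr] at hc
    have h3 := Nat.le_of_ble_eq_true hc
    right
    have h4 : kv d j x y c < INF := by omega
    refine (kvP h hx hy hz (by omega) h4).mono le_rfl ?_
    have h5 : (kv d j x y c : ℤ) + 48 ≤ w + 3 * j := by exact_mod_cast h3
    unfold tau
    linarith
  | succ u =>
    rw [hr] at hc
    change rp2 d j w x y c u (Nat.div r 8) = true at hc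
    generalize Nat.div r 8 = i at hc
    rw [rp2_eq] at hc
    generalize Nat.land u 1 = s at hc
    left; left
    cases h1 : Nat.ble u 1 with
    | true =>
      rw [h1] at hc
      have h3 : rv d j s i x + cv d j y + cv d j c + 96 ≤ w := Nat.le_of_ble_eq_true hc
      obtain ⟨Z, h4, h5⟩ := rv_move (j := j) h (s := s) (i := i) hx (by omega) (by omega)
      refine ⟨Z + ch (er y) + ch (er c), ?_, ?_⟩
      · exact Cm.mv_add.mpr (Or.inl ⟨_, Cm.mv_add.mpr (Or.inl ⟨Z, h4, rfl⟩), rfl⟩)
      · refine (P_add' (P_add' h5 (chP h hy (by omega) (by omega)))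
          (chP h hz (by omega) (by omega))).mono le_rfl ?_
        have : (rv d j s i x : ℤ) + cv d j y + cv d j c + 96 ≤ w := by exact_mod_cast h3
        linarith
    | false =>
      rw [h1] at hc
      cases h2 : Nat.ble u 3 with
      | true =>
        rw [h2] at hc
        have h3 : cv d j x + rv d j s i y + cv d j c + 96 ≤ w := Nat.le_of_ble_eq_true hc
        obtain ⟨Z, h4, h5⟩ := rv_move (j := j) h (s := s) (i := i) hy (by omega) (by omega)
        refine ⟨ch (er x) + Z + ch (er c), ?_, ?_⟩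
        · exact Cm.mv_add.mpr (Or.inl ⟨_, Cm.mv_add.mpr (Or.inr ⟨Z, h4, rfl⟩), rfl⟩)
        · refine (P_add' (P_add' (chP h hx (by omega) (by omega)) h5)
            (chP h hz (by omega) (by omega))).mono le_rfl ?_
          have : (cv d j x : ℤ) + rv d j s i y + cv d j c + 96 ≤ w := by exact_mod_cast h3
          linarith
      | false =>
        rw [h2] at hc
        have h3 : cv d j x + cv d j y + rv d j s i c + 96 ≤ w := Nat.le_of_ble_eq_true hc
        obtain ⟨Z, h4, h5⟩ := rv_move (j := j) h (s := s) (i := i) hz (by omega) (by omega)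
        refine ⟨ch (er x) + ch (er y) + Z, ?_, ?_⟩
        · exact Cm.mv_add.mpr (Or.inr ⟨Z, h4, rfl⟩)
        · refine (P_add' (P_add' (chP h hx (by omega) (by omega))
            (chP h hy (by omega) (by omega))) h5).mono le_rfl ?_
          have : (cv d j x : ℤ) + cv d j y + rv d j s i c + 96 ≤ w := by exact_mod_cast h3
          linarith

theorem dlc_sound {d : Dc} {N j w h kx lx ky ly kc lc : ℕ} (hg : Gd d N) {x y c : AB}
    (hx : G kx lx x) (hy : G ky ly y) (hz : G kc lc c)
    (hs : (er x).size + (er y).size + (er c).size < N)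
    (hw : w < INF) (hc : dlc d j w h kx lx ky ly kc lc x y c = true)
    (hd : dv (mk h, er x, er y, er c) = true) :
    pg.P 48 (tau j) (dd (mk h, er x, er y, er c)) 0 (w : ℤ) := by
  have h3 : val d j kx lx x + val d j ky ly y + val d j kc lc c ≤ w := by
    unfold dlc at hc
    cases h0 : Nat.beq h 3 with
    | true =>
      rw [h0] at hc
      exact Nat.le_of_ble_eq_true hc
    | false =>
      have h4 : lw (er x).ne (er y).ne (er c).ne = true := by
        have : (mk h || lw (er x).ne (er y).ne (er c).ne) = true := hd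
        rw [show mk h = false from h0] at this
        simpa using this
      rw [h0] at hc
      change Bool.rec (motive := fun _ => Bool) true (dl2 d j w kx lx ky ly kc lc x y c)
        (lwk kx ky kc) = true at hc
      rw [lwk_eq hx hy hz, h4] at hc
      exact Nat.le_of_ble_eq_true hc
  have h4 := P_add' (P_add' (hg _ _ x hx (by omega) j (by omega))
    (hg _ _ y hy (by omega) j (by omega))) (hg _ _ c hz (by omega) j (by omega))
  have h5 : (dd (mk h, er x, er y, er c) : Multiset K) =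
      {(er x, .e)} + {(er y, .e)} + {(er c, .e)} := by
    simp only [dd, Multiset.insert_eq_cons, ← Multiset.singleton_add]
    abel
  rw [h5]
  refine h4.mono le_rfl ?_
  exact_mod_cast h3

/-- a checked view -/
def CV (d : Dc) (j w : ℕ) (b c : AB) (v : Bool × MB × MB × MB) : Prop :=
  ∃ (h kx lx ky ly kz lz : ℕ) (x y z : AB) (r : ℕ), G kx lx x ∧ G ky ly y ∧ G kz lz z ∧
    v = (mk h, er x, er y, er z) ∧ v ∈ vws (er c) (er b) ∧ rpl d j w x y z r = true ∧
    dlc d j w h kx lx ky ly kz lz x y z = true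

theorem G_ne {k l : ℕ} {a : AB} (h : G k l a) (h0 : Nat.beq k 0 = true) : a = .e :=
  G_zero h (Nat.eq_of_beq_eq_true h0)

theorem wk_ck {d : Dc} {j w : ℕ} : ∀ (b : AB) (kc lc : ℕ) (c : AB) (q : ℕ) (k : ℕ → Bool),
    ok b → G kc lc c → wk d j w b kc lc c q k = true →
    (∀ v ∈ vws (er c) (er b), CV d j w b c v) ∧ ∃ q', k q' = true := by
  intro b
  induction b with
  | e =>
    intro kc lc c q k _ _ h
    exact ⟨fun v hv => by simp [er, vws] at hv, ⟨q, h⟩⟩
  | n h kx lx ky ly x y ihx ihy =>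
    intro kc lc c q k hb hc hw
    obtain ⟨hh, hx, hy⟩ := hb
    have hx' : G kx lx x := hx
    have hy' : G ky ly y := hy
    have h' : ba (rpl d j w x y c (Nat.mod q 1024)) (ba (dlc d j w h kx lx ky ly kc lc x y c)
        (frc (Nat.div q 1024) (wk2 h kx lx ky ly kc lc x y c (wk d j w x) (wk d j w y) k))) =
          true := hw
    obtain ⟨h1, h2⟩ := ba_true h'
    obtain ⟨h3, h4⟩ := ba_true h2
    rw [frc_eq] at h4
    generalize Nat.div q 1024 = q1 at h4
    -- the branch `y`
    have Y : ∀ q2 : ℕ, wk3 h kx lx ky kc lc x c (wk d j w y) k q2 = true →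
        (∀ v ∈ vws (.n (mk h) (er x) (er c)) (er y),
          CV d j w (.n h kx lx ky ly x y) c v) ∧ ∃ q', k q' = true := by
      intro q2 h5
      unfold wk3 at h5
      cases hn : Nat.beq ky 0 with
      | true =>
        rw [hn] at h5
        have hye := G_ne hy' hn
        refine ⟨fun v hv => ?_, ⟨q2, h5⟩⟩
        rw [hye] at hv
        simp [er, vws] at hv
      | false =>
        rw [hn] at h5
        simp only [stp_eq] at h5
        obtain ⟨h6, h7⟩ := ihy _ _ _ _ _ hy'.2.2 (G_mk hh hx' hc) h5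
        refine ⟨fun v hv => ?_, h7⟩
        obtain ⟨h0, kx', lx', ky', ly', kz', lz', x', y', z', r, g1, g2, g3, h9, h10, h11⟩ :=
          h6 v hv
        exact ⟨h0, kx', lx', ky', ly', kz', lz', x', y', z', r, g1, g2, g3, h9,
          mem_vws_r h10, h11⟩
    have X : (∀ v ∈ vws (.n (mk h) (er y) (er c)) (er x),
          CV d j w (.n h kx lx ky ly x y) c v) ∧
        ∃ q2, wk3 h kx lx ky kc lc x c (wk d j w y) k q2 = true := by
      unfold wk2 at h4
      cases hn : Nat.beq kx 0 with
      | true =>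
        rw [hn] at h4
        have hxe := G_ne hx' hn
        refine ⟨fun v hv => ?_, ⟨q1, h4⟩⟩
        rw [hxe] at hv
        simp [er, vws] at hv
      | false =>
        rw [hn] at h4
        simp only [stp_eq] at h4
        obtain ⟨h6, h7⟩ := ihx _ _ _ _ _ hx'.2.2 (G_mk hh hy' hc) h4
        refine ⟨fun v hv => ?_, h7⟩
        obtain ⟨h0, kx', lx', ky', ly', kz', lz', x', y', z', r, g1, g2, g3, h9, h10, h11⟩ :=
          h6 v hv
        exact ⟨h0, kx', lx', ky', ly', kz', lz', x', y', z', r, g1, g2, g3, h9,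
          mem_vws_l h10, h11⟩
    obtain ⟨X1, q2, X2⟩ := X
    obtain ⟨Y1, Y2⟩ := Y q2 X2
    refine ⟨fun v hv => ?_, Y2⟩
    have hv' : v ∈ (mk h, er x, er y, er c) :: (vws (.n (mk h) (er y) (er c)) (er x) ++
        vws (.n (mk h) (er x) (er c)) (er y)) := hv
    rw [List.mem_cons, List.mem_append] at hv'
    rcases hv' with rfl | hv' | hv'
    · exact ⟨h, kx, lx, ky, ly, kc, lc, x, y, c, _, hx', hy', hc, rfl, hv, h1, h3⟩
    · exact X1 v hv'
    · exact Y1 v hv'

/-- soundness of a certificate that looks at all moves -/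
theorem item_sound {d : Dc} {a : AB} (ho : ok a) (h : Gd d (er a).size) {j w i q : ℕ}
    (hw : w + 3 * j ≤ 65000) (hA : pv d j a i 0 1 .e + (48 + 3 * j) ≤ w)
    (hB : wk d j w a 0 1 .e q (fun _ => true) = true) :
    pg.P 48 (tau j) {(er a, .e)} 0 (w : ℤ) := by
  have hINF : w + 3 * j < INF := by unfold INF; omega
  obtain ⟨hB', -⟩ := wk_ck a 0 1 .e q _ ho G_e hB
  have hsz : ∀ {m : Bool} {x y z : MB}, (m, x, y, z) ∈ vws (er .e) (er a) →
      x.size + y.size + z.size < (er a).size := by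
    intro m x y z hv
    have := view_size hv
    simp only [er, MB.size] at this
    omega
  refine Gm.Q.toP (τ := tau j) ⟨tau_nonneg j, ?_, ?_, ?_, ?_⟩ le_rfl
  · intro _
    obtain ⟨m, x, y, z, h1, h2⟩ := pv_view a i 0 1 .e ho G_e
      (show pv d j a i 0 1 .e < INF by omega)
    obtain ⟨F, h3, h4⟩ := view_move h1.mem
    left
    refine ⟨F, h3, P_congr h4 (PEq.refl _) ?_⟩
    rw [h2] at hA
    refine (kvP h h1.hx h1.hy h1.hz (hsz h1.mem).le (by omega)).mono le_rfl ?_
    have h5 : (kv d j x y z : ℤ) + (48 + 3 * j) ≤ w := by exact_mod_cast hA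
    unfold tau
    linarith
  · intro X' hX
    obtain ⟨v, h1, h2⟩ := cmv_view (mv_single.mp hX)
    obtain ⟨h0, kx, lx, ky, ly, kz, lz, x, y, z, r, g1, g2, g3, h4, h5, h6, -⟩ := hB' v h1
    subst h4
    have h7 := rpl_sound h (m := mk h0) g1.2.2 g2.2.2 g3.2.2 (hsz h5) hINF h6
    rcases h7 with (⟨Z, h8, h9⟩ | ⟨Y', hY', -⟩) | h8
    · obtain ⟨Z', h10, h11⟩ := h2.sim.1.1 Z h8
      exact Or.inl (Or.inl ⟨Z', h10, P_congr h11 (PEq.refl _) h9⟩)
    · exact absurd hY' (Cm.term_zero _)
    · exact Or.inr (P_congr h2 (PEq.refl _) h8)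
  · intro Y' hY'
    exact absurd hY' (Cm.term_zero _)
  · intro X' hX
    obtain ⟨v, h1, hm, h2⟩ := cdl_view (dl_single.mp hX)
    obtain ⟨h0, kx, lx, ky, ly, kz, lz, x, y, z, r, g1, g2, g3, h4, h5, -, h6⟩ := hB' v h1
    subst h4
    have h7 := dlc_sound h g1 g2 g3 (hsz h5) (by omega) h6 hm
    exact ⟨0, Gm.dls.refl _, P_congr h2 (PEq.refl _) h7⟩

theorem mrk_sound {d : Dc} {N j : ℕ} (h : Gd d N) {kx lx ky ly : ℕ} {x y : AB}
    (hx : G kx lx x) (hy : G ky ly y) (hb : (er x).size + (er y).size + 1 < N)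
    (hv : mrk d j kx lx ky ly x y < INF) :
    pg.P 48 (tau j) {(.n true (er x) (er y), .e)} 0 (mrk d j kx lx ky ly x y : ℤ) := by
  have e : mrk d j kx lx ky ly x y = frc (mkh 3 kx lx ky ly) fun k =>
    frc (Nat.add (Nat.add lx ly) 2) fun l => val d j k l (.n 3 kx lx ky ly x y) := rfl
  rw [e, frc_eq, frc_eq] at hv ⊢
  exact h _ _ _ (G_mk (Or.inr rfl) hx hy) (by rw [er_n]; simp only [MB.size]; omega) j hv

theorem mv_sound {d : Dc} {N j : ℕ} (h : Gd d N) {b : AB} (ho : ok b) (hb : (er b).size < N)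
    (hv : mv d j b < INF) :
    er b ≠ .e ∧ pg.P 48 (tau j) {(MB.mk (er b), .e)} 0 (mv d j b : ℤ) := by
  cases b with
  | e => exact absurd hv (lt_irrefl _)
  | n h' kx lx ky ly x y =>
    refine ⟨by simp [er], ?_⟩
    rw [er_n] at hb ⊢
    simp only [MB.size] at hb
    exact mrk_sound h ho.2.1 ho.2.2 hb hv

theorem ct_sound {d : Dc} {j : ℕ} : ∀ (b : AB) (i kc lc : ℕ) (c : AB), ok b → G kc lc c →
    Gd d ((er b).size + (er c).size) → ct d j b i kc lc c < INF →
    pg.P 48 (tau j) {(er b, er c)} 0 (ct d j b i kc lc c : ℤ) := by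
  intro b
  induction b with
  | e => intro i kc lc c _ _ _ h; exact absurd h (lt_irrefl _)
  | n h' kx lx ky ly x y ihx ihy =>
    intro i kc lc c hb hc h hv
    obtain ⟨hh, hx, hy⟩ := hb
    have hx' : G kx lx x := hx
    have hy' : G ky ly y := hy
    cases i with
    | zero =>
      have e : ct d j (.n h' kx lx ky ly x y) 0 kc lc c =
        mrk d j kx lx ky ly x y + mv d j c := rfl
      rw [e] at hv ⊢
      rw [er_n] at h ⊢
      have pos : ∀ b : MB, b ≠ .e → 0 < b.size := by
        intro b hb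
        cases b with
        | e => exact absurd rfl hb
        | n m x y => simp [MB.size]
      have hb : mrk d j kx lx ky ly x y < INF := by omega
      have hc' : mv d j c < INF := by omega
      have nc : er c ≠ .e := by
        intro h0
        rw [er_e h0] at hc'
        exact absurd hc' (lt_irrefl _)
      have pc := pos _ nc
      simp only [MB.size] at h
      push_cast
      exact P_cut (b := .n (mk h') (er x) (er y)) (mrk_sound h hx' hy' (by omega) hb)
        (mv_sound h hc.2.2 (by omega) hc').2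
    | succ i =>
      have e : ct d j (.n h' kx lx ky ly x y) (i + 1) kc lc c = Bool.rec (motive := fun _ => ℕ)
          (stp h' kx lx kc lc x c (ct d j y (Nat.sub i (Nat.div lx 3))))
          (stp h' ky ly kc lc y c (ct d j x i))
          (Nat.ble (Nat.succ (Nat.mul 3 (Nat.succ i))) lx) := rfl
      rw [e] at hv ⊢
      cases hb : Nat.ble (Nat.succ (Nat.mul 3 (Nat.succ i))) lx with
      | true =>
        rw [hb] at hv
        simp only [stp_eq] at hv ⊢
        refine P_congr (PEq.rho _ _ _ _).symm (PEq.refl _)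
          (ihx i _ _ _ hx'.2.2 (G_mk hh hy' hc) ?_ hv)
        have : (er x).size + (er (.n h' ky ly kc lc y c)).size =
            (er (.n h' kx lx ky ly x y)).size + (er c).size := by
          simp only [er, MB.size]; omega
        rw [this]; exact h
      | false =>
        rw [hb] at hv
        simp only [stp_eq] at hv ⊢
        refine P_congr ((PEq.rho _ _ _ _).symm.trans (PEq.sw _ _ _ _)) (PEq.refl _)
          (ihy _ _ _ _ hy'.2.2 (G_mk hh hx' hc) ?_ hv)
        have : (er y).size + (er (.n h' kx lx kc lc x c)).size =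
            (er (.n h' kx lx ky ly x y)).size + (er c).size := by
          simp only [er, MB.size]; omega
        rw [this]; exact h

theorem cki_sound {d : Dc} {a : AB} (ho : ok a) (h : Gd d (er a).size) {j w q : ℕ}
    (hw : w < INF) (hc : cki d a j w q = true) : pg.P 48 (tau j) {(er a, .e)} 0 (w : ℤ) := by
  have e : cki d a j w q = Bool.rec (motive := fun _ => Bool)
    (Nat.ble (ct d j a (Nat.div q 2) 0 1 .e) w) (cks d a j w q)
    (Nat.beq (Nat.mod q 2) 0) := rfl
  rw [e] at hc
  cases hb : Nat.beq (Nat.mod q 2) 0 with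
  | false =>
    rw [hb] at hc
    have h1 := Nat.le_of_ble_eq_true hc
    refine (ct_sound (d := d) (j := j) a (Nat.div q 2) 0 1 .e ho G_e ?_ (by omega)).mono le_rfl
      (by exact_mod_cast h1)
    simpa [er, MB.size] using h
  | true =>
    rw [hb] at hc
    change ba (Nat.ble (w + 3 * j) 65000)
      (ba (Nat.ble (pv d j a (Nat.mod (Nat.div q 2) 128) 0 1 .e + (48 + 3 * j)) w)
        (frc (Nat.div q 256) fun q1 => wk d j w a 0 1 .e q1 fun _ => true)) = true at hc
    obtain ⟨h1, h2⟩ := ba_true hc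
    obtain ⟨h3, h4⟩ := ba_true h2
    rw [frc_eq] at h4
    exact item_sound ho h (Nat.le_of_ble_eq_true h1) (Nat.le_of_ble_eq_true h3) h4

theorem It_sound {d : Dc} {a : AB} (ho : ok a) (h : Gd d (er a).size) : ∀ (i : It),
    It.ok d a i = true → ∀ j, It.val j i < INF →
    pg.P 48 (tau j) {(er a, .e)} 0 (It.val j i : ℤ) := by
  intro i
  induction i with
  | z => intro _ j h1; exact absurd h1 (lt_irrefl _)
  | s j' w q t ih =>
    intro hc j h1
    have hc' : ba (cki d a j' w q) (It.ok d a t) = true := hc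
    obtain ⟨h2, h3⟩ := ba_true hc'
    have e : It.val j (.s j' w q t) = Bool.rec (motive := fun _ => ℕ) (It.val j t) w
      (Nat.ble j' j) := rfl
    rw [e] at h1 ⊢
    cases hb : Nat.ble j' j with
    | true =>
      rw [hb] at h1
      exact (cki_sound ho h h1 h2).mono_t (tau_mono (Nat.le_of_ble_eq_true hb))
    | false =>
      rw [hb] at h1
      exact ih h3 j h1

theorem dec_sound (f : ℕ) : ∀ (q : ℕ) (k : ℕ → ℕ → AB → ℕ → Bool), dec f q k = true →
    ∃ kk l a q', G kk l a ∧ k kk l a q' = true := by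
  induction f with
  | zero => intro q k h; exact absurd h (by simp [dec])
  | succ f ih =>
    intro q k h
    have e : dec (f + 1) q k = frc (Nat.div q 4) (tkn (Nat.mod q 4) (dec f) k) := rfl
    rw [e, frc_eq] at h
    generalize Nat.div q 4 = q1 at h
    generalize Nat.mod q 4 = t at h
    have two : ∀ h0, (h0 = 2 ∨ h0 = 3) → dc2 h0 (dec f) q1 k = true →
        ∃ kk l a q', G kk l a ∧ k kk l a q' = true := by
      intro h0 hh h1
      unfold dc2 at h1
      obtain ⟨kx, lx, x, q2, hx, h2⟩ := ih _ _ h1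
      obtain ⟨ky, ly, y, q3, hy, h3⟩ := ih _ _ h2
      rw [stp_eq] at h3
      exact ⟨_, _, _, q3, G_mk hh hx hy, h3⟩
    unfold tkn at h
    cases t with
    | zero => exact ⟨0, 1, .e, q1, G_e, h⟩
    | succ t =>
      cases t with
      | zero => exact two 2 (Or.inl rfl) h
      | succ t =>
        cases t with
        | zero => exact two 3 (Or.inr rfl) h
        | succ t =>
          refine ⟨8, 4, .n 2 0 1 0 1 .e .e, q1, ?_, h⟩
          exact G_mk (Or.inl rfl) G_e G_e

theorem Dc_sound {d : Dc} {N : ℕ} (h : Gd d N) : ∀ (t : Dc), Dc.ok d t → ∀ k j,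
    Dc.look j k t < INF → ∃ kk l a, G kk l a ∧ a ≠ .e ∧ ky l a = k ∧
      ((er a).size ≤ N → pg.P 48 (tau j) {(er a, .e)} 0 (Dc.look j k t : ℤ)) := by
  intro t
  induction t with
  | z => intro _ k j h1; exact absurd h1 (lt_irrefl _)
  | s k' b i l r ihl ihr =>
    rintro ⟨h2, h4, h5⟩ k j h1
    have e : Dc.look j k (.s k' b i l r) =
        Bool.rec (motive := fun _ => ℕ) (Dc.look j k r)
          (Bool.rec (motive := fun _ => ℕ) (Dc.look j k l) (It.val j i) (Nat.beq k k'))
          (Nat.ble k k') := rfl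
    rw [e] at h1 ⊢
    cases hc : Nat.ble k k' with
    | false =>
      rw [hc] at h1
      exact ihr h5 k j h1
    | true =>
      rw [hc] at h1
      cases hb : Nat.beq k k' with
      | false =>
        rw [hb] at h1
        exact ihl h4 k j h1
      | true =>
        rw [hb] at h1
        have hk := Nat.eq_of_beq_eq_true hb
        obtain ⟨kk, l', a, q', ho, h6⟩ := dec_sound 200 b _ h2
        obtain ⟨h7, h8⟩ := ba_true h6
        obtain ⟨h9, h10⟩ := ba_true h8
        refine ⟨kk, l', a, ho, ?_, (Nat.eq_of_beq_eq_true h7).trans hk.symm, fun hN => ?_⟩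
        · rintro rfl
          have h11 : 1 ≤ kk := Nat.le_of_ble_eq_true h9
          have h12 : kk = 0 := ho.1
          omega
        · exact It_sound ho.2.2 (fun k' l' b' hb' hs => h k' l' b' hb' (by omega)) i h10 j h1

theorem val_ne {d : Dc} {j k l : ℕ} {a : AB} (h : G k l a) (h0 : a ≠ .e) :
    val d j k l a = Dc.look j (ky l a) d := by
  cases k with
  | zero => exact absurd (G_zero h rfl) h0
  | succ k =>
    have e : val d j (k + 1) l a = frc (ky l a) fun q => Dc.look j q d := rfl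
    rw [e, frc_eq]

theorem Gd_all {d : Dc} (hd : Dc.ok d d) : ∀ N, Gd d N := by
  intro N
  induction N with
  | zero => intro k l b _ hb; exact absurd hb (Nat.not_lt_zero _)
  | succ N ih =>
    intro k l b ho hb j hv
    by_cases h0 : b = .e
    · subst h0
      have h1 : k = 0 := ho.1
      subst h1
      exact P_ee _
    · rw [val_ne ho h0] at hv ⊢
      obtain ⟨kk, l', a, h1, h2, h3, h4⟩ := Dc_sound ih d hd _ j hv
      have h5 := ky_inj h1 ho h2 h0 h3
      have h6 := h5.size
      simp only [msz_singleton, ksz, MB.size] at h6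
      exact P_congr h5 (PEq.refl _) (h4 (by omega))

theorem Dc_ok_of_okb {d t : Dc} (h : Dc.okb d t = true) : Dc.ok d t := by
  induction t with
  | z => trivial
  | s k b i l r ihl ihr =>
    have h' : ba (eok d k b i) (ba (Dc.okb d l) (Dc.okb d r)) = true := h
    obtain ⟨h1, h2⟩ := ba_true h'
    obtain ⟨h3, h4⟩ := ba_true h2
    exact ⟨h1, ihl h3, ihr h4⟩

theorem Dc_node {d : Dc} {k b : ℕ} {i : It} {l r : Dc} (h : eok d k b i = true)
    (hl : Dc.ok d l) (hr : Dc.ok d r) : Dc.ok d (.s k b i l r) := ⟨h, hl, hr⟩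

theorem dc2_eq {R : Type} (h : ℕ) (ih : ℕ → (ℕ → ℕ → AB → ℕ → R) → R) (q : ℕ)
    (k : ℕ → ℕ → AB → ℕ → R) : dc2 h ih q k =
      ih q fun kx lx x q2 => ih q2 fun ky ly y q3 =>
        k (mkh h kx lx ky ly) (lx + ly + 2) (.n h kx lx ky ly x y) q3 := by
  unfold dc2
  simp only [stp_eq]

theorem dcd_sound (q f : ℕ) : ∀ (p : ℕ) (k : ℕ → ℕ → AB → ℕ → ℕ), dcd q f p k < INF →
    ∃ kk l a p', G kk l a ∧ dcd q f p k = k kk l a p' := by
  induction f with
  | zero => intro p k h; exact absurd h (lt_irrefl _)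
  | succ f ih =>
    intro p k h
    cases p with
    | zero => exact absurd h (lt_irrefl _)
    | succ p1 =>
      have two : ∀ h0 p2, (h0 = 2 ∨ h0 = 3) → dc2 h0 (dcd q f) p2 k < INF →
          ∃ kk l a q', G kk l a ∧ dc2 h0 (dcd q f) p2 k = k kk l a q' := by
        intro h0 p2 hh h1
        rw [dc2_eq] at h1 ⊢
        obtain ⟨kx, lx, x, q2, hx, h2⟩ := ih _ _ h1
        rw [h2] at h1 ⊢
        obtain ⟨ky, ly, y, q3, hy, h3⟩ := ih _ _ h1
        rw [h3]
        exact ⟨_, _, _, q3, G_mk hh hx hy, rfl⟩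
      have e : dcd q (f + 1) (p1 + 1) k = Bool.rec (motive := fun _ => ℕ) (k 0 1 .e p1)
        (Nat.rec (motive := fun _ => Nat) INF
          (fun p2 _ => Bool.rec (motive := fun _ => ℕ)
            (dc2 2 (dcd q f) p2 k) (dc2 3 (dcd q f) p2 k)
            (Nat.beq (Nat.land (Nat.shiftRight q p2) 1) 1)) p1)
        (Nat.beq (Nat.land (Nat.shiftRight q p1) 1) 1) := rfl
      rw [e] at h ⊢
      cases h0 : Nat.beq (Nat.land (Nat.shiftRight q p1) 1) 1 with
      | false => exact ⟨0, 1, .e, p1, G_e, rfl⟩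
      | true =>
        rw [h0] at h
        cases p1 with
        | zero => exact absurd h (lt_irrefl _)
        | succ p2 =>
          simp only at h ⊢
          cases h1 : Nat.beq (Nat.land (Nat.shiftRight q p2) 1) 1 with
          | false =>
            rw [h1] at h
            exact two 2 p2 (Or.inl rfl) h
          | true =>
            rw [h1] at h
            exact two 3 p2 (Or.inr rfl) h

theorem bl1_eq (s q a : ℕ) (f : ℕ → ℕ → ℕ) : ∃ q' a', bl1 s q a f = f q' a' := by
  unfold bl1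
  rw [frc_eq]
  cases Nat.shiftRight q s with
  | zero => exact ⟨q, a, rfl⟩
  | succ n =>
    refine ⟨n + 1, a + s, ?_⟩
    show frc (Nat.add a s) (f (n + 1)) = _
    rw [frc_eq]
    rfl

theorem vx_eq (d : Dc) (q : ℕ) : ∃ a, vx d q =
    dcd q 200 a fun k l b _ => Bool.rec (motive := fun _ => ℕ) INF (val d 24 k l b)
      (Nat.beq k q) := by
  unfold vx
  obtain ⟨q1, a1, h⟩ := bl1_eq 256 q 1 _
  rw [h]
  obtain ⟨q2, a2, h⟩ := bl1_eq 128 q1 a1 _
  rw [h]
  obtain ⟨q3, a3, h⟩ := bl1_eq 64 q2 a2 _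
  rw [h]
  obtain ⟨q4, a4, h⟩ := bl1_eq 32 q3 a3 _
  rw [h]
  obtain ⟨q5, a5, h⟩ := bl1_eq 16 q4 a4 _
  rw [h]
  obtain ⟨q6, a6, h⟩ := bl1_eq 8 q5 a5 _
  rw [h]
  obtain ⟨q7, a7, h⟩ := bl1_eq 4 q6 a6 _
  rw [h]
  obtain ⟨q8, a8, h⟩ := bl1_eq 2 q7 a7 _
  rw [h]
  obtain ⟨q9, a9, h⟩ := bl1_eq 1 q8 a8 _
  rw [h]
  exact ⟨_, rfl⟩

/-- the bounds of a checked dictionary -/
theorem vx_ok {d : Dc} (hd : Dc.ok d d) (b : MB) (h : vx d (code b) < INF) :
    pg.P 48 72 {(b, .e)} 0 (vx d (code b) : ℤ) := by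
  obtain ⟨p, e⟩ := vx_eq d (code b)
  rw [e] at h ⊢
  obtain ⟨k, l, a, p', ho, h1⟩ := dcd_sound _ _ _ _ h
  rw [h1] at h ⊢
  cases h2 : Nat.beq k (code b) with
  | false =>
    rw [h2] at h
    exact absurd h (lt_irrefl _)
  | true =>
    rw [h2] at h
    have h3 := Nat.eq_of_beq_eq_true h2
    have h6 := ho.1
    rw [h3] at h6
    have h4 := Gd_all hd _ k l a ho (Nat.lt_succ_self _) 24 h
    have h5 : tau 24 = 72 := by unfold tau; norm_num
    rw [h5] at h4
    exact P_congr (code_inj h6.symm .e) (PEq.refl _) h4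

end Pool.Agent.Helper91.VZ
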