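import Pool.Agent.Helper66.ML.Code
import Pool.Agent.Helper66.ML.Views

/-!
A compact table of bounds for closed marked branches, with one entry for each unrooted tree, and
its checker.

All values are in units `1/48`; the temperature at level `j` is `3 * j`. The key of a closed
branch is the code of the tree hung at its centroid (a vertex or an edge). The code of a branch
with `n` vertices has `3 * n + 1` bits; codes are always accompanied by their lengths, since the
kernel is slow at logarithms.
-/

namespace Pool.Agent.Helper91.VZ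

open Pool.Agent.Helper66.IL

/-- branches: `h` is 3 if the root is marked and 2 otherwise, `kx`, `ky` are the codes of the
children and `lx`, `ly` the lengths of these codes -/
inductive AB
  | e
  | n (h kx lx ky ly : Nat) (x y : AB)

/-- items of an entry: level, value, certificate -/
inductive It
  | z
  | s (j w q : Nat) (t : It)

/-- the dictionary: key, tree, items -/
inductive Dc
  | z
  | s (k b : Nat) (i : It) (l r : Dc)

/-- no bound -/
def INF : Nat := 65535

noncomputable def ba (a b : Bool) : Bool := Bool.rec false b a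

noncomputable def bo (a b : Bool) : Bool := Bool.rec b true a

/-- evaluate a number -/
noncomputable def frc {R : Type} (n : Nat) (f : Nat → R) : R :=
  Nat.rec (motive := fun _ => R) (f 0) (fun n _ => f (Nat.succ n)) n

noncomputable def pk (h a la b lb : Nat) : Nat :=
  Nat.add (Nat.shiftLeft (Nat.add (Nat.shiftLeft h la) a) lb) b

/-- the code of a branch from the codes of its children -/
noncomputable def mkh (h a la b lb : Nat) : Nat :=
  Bool.rec (pk h a la b lb) (Bool.rec (pk h b lb a la) 8 (Nat.beq b 0)) (Nat.ble a b)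

/-- the key of a tree hung at a vertex -/
noncomputable def kyv (h a la b lb c lc : Nat) : Nat :=
  Bool.rec
    (Bool.rec (pk h (mkh 2 b lb c lc) (Nat.add (Nat.add lb lc) 2) a la)
      (pk h (mkh 2 a la c lc) (Nat.add (Nat.add la lc) 2) b lb) (Nat.ble b a))
    (Bool.rec (Bool.rec (pk h (mkh 2 b lb c lc) (Nat.add (Nat.add lb lc) 2) a la)
        (pk h (mkh 2 a la c lc) (Nat.add (Nat.add la lc) 2) b lb) (Nat.ble b a))
      (pk h (mkh 2 a la b lb) (Nat.add (Nat.add la lb) 2) c lc) (Nat.ble c b)) (Nat.ble c a)

noncomputable def keyV (h a la b lb c lc : Nat) : Nat :=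
  kyv (Bool.rec h 2 (Nat.beq (Nat.add a (Nat.add b c)) 0)) a la b lb c lc

/-- the key of a tree hung at an edge -/
noncomputable def keyE (a la b lb : Nat) : Nat :=
  pk 2 0 1 (mkh 2 a la b lb) (Nat.add (Nat.add la lb) 2)

/-- one step up: the upper branch of a child -/
noncomputable def stp {R : Type} (h ky ly kc lc : Nat) (y c : AB) (f : Nat → Nat → AB → R) : R :=
  frc (mkh h ky ly kc lc) fun k => frc (Nat.add (Nat.add ly lc) 2) fun l =>
    f k l (.n h ky ly kc lc y c)

noncomputable def fin (N h kx lx ky ly kc lc : Nat) : Nat :=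
  Bool.rec (Bool.rec (keyV h kx lx ky ly kc lc)
      (keyE ky ly (mkh h kx lx kc lc) (Nat.add (Nat.add lx lc) 2))
      (Nat.beq (Nat.succ (Nat.mul 2 ly)) N))
    (keyE kx lx (mkh h ky ly kc lc) (Nat.add (Nat.add ly lc) 2))
    (Nat.beq (Nat.succ (Nat.mul 2 lx)) N)

/-- the key of the tree consisting of the two branches, `(N - 3) / 3` vertices -/
noncomputable def walk (N : Nat) (b : AB) : Nat → Nat → AB → Nat :=
  AB.rec (motive := fun _ => Nat → Nat → AB → Nat) (fun _ _ _ => 1)
    (fun h kx lx ky ly x y ihx ihy kc lc c =>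
      Bool.rec
        (Bool.rec (fin N h kx lx ky ly kc lc) (stp h kx lx kc lc x c ihy)
          (Nat.ble N (Nat.mul 2 ly)))
        (stp h ky ly kc lc y c ihx) (Nat.ble N (Nat.mul 2 lx))) b

/-- the key of the closed branch with a code of length `l` -/
noncomputable def ky (l : Nat) (a : AB) : Nat := frc (Nat.add l 2) fun N => walk N a 0 1 .e

noncomputable def It.val (j : Nat) (i : It) : Nat :=
  It.rec (motive := fun _ => Nat) INF (fun j' w _ _ ih => Bool.rec ih w (Nat.ble j' j)) i

noncomputable def Dc.look (j k : Nat) (d : Dc) : Nat :=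
  Dc.rec (motive := fun _ => Nat) INF
    (fun k' _ i _ _ ihl ihr =>
      Bool.rec ihr (Bool.rec ihl (It.val j i) (Nat.beq k k')) (Nat.ble k k')) d

/-- the bound for the closed branch `a` with code `k` of length `l` -/
noncomputable def val (d : Dc) (j k l : Nat) (a : AB) : Nat :=
  Nat.rec (motive := fun _ => Nat) 0
    (fun _ _ => frc (ky l a) fun q => Dc.look j q d) k

/-- the bound for the closed branches of the children -/
noncomputable def cv (d : Dc) (j : Nat) (x : AB) : Nat :=
  AB.rec (motive := fun _ => Nat) 0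
    (fun _ ka la kb lb a b _ _ => Nat.add (val d j ka la a) (val d j kb lb b)) x

/-- the bound after the selection of a vertex with the three branches -/
noncomputable def kv (d : Dc) (j : Nat) (x y c : AB) : Nat :=
  Nat.add (Nat.add (cv d j x) (cv d j y)) (cv d j c)

/-- the bound after the selection of the vertex with number `i` of the branch -/
noncomputable def pv (d : Dc) (j : Nat) (b : AB) : Nat → Nat → Nat → AB → Nat :=
  AB.rec (motive := fun _ => Nat → Nat → Nat → AB → Nat) (fun _ _ _ _ => INF)
    (fun h kx lx ky ly x y ihx ihy i kc lc c =>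
      Nat.rec (motive := fun _ => Nat) (kv d j x y c)
        (fun i' _ => Bool.rec (stp h kx lx kc lc x c (ihy (Nat.sub i' (Nat.div lx 3))))
          (stp h ky ly kc lc y c (ihx i'))
          (Nat.ble (Nat.succ (Nat.mul 3 (Nat.succ i'))) lx)) i) b

/-- the bound for the children of `x` after a move in one of the two closed branches -/
noncomputable def rv (d : Dc) (j s i : Nat) (x : AB) : Nat :=
  AB.rec (motive := fun _ => Nat) INF
    (fun _ ka la kb lb a b _ _ => Bool.rec (Nat.add (val d j ka la a) (pv d j b i 0 1 .e))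
      (Nat.add (pv d j a i 0 1 .e) (val d j kb lb b)) (Nat.beq s 0)) x

/-- a reply in one of the components -/
noncomputable def rp2 (d : Dc) (j w : Nat) (x y c : AB) (u i : Nat) : Bool :=
  Bool.rec
    (Bool.rec
      (Nat.ble (Nat.add (Nat.add (Nat.add (cv d j x) (cv d j y))
        (rv d j (Nat.land u 1) i c)) 96) w)
      (Nat.ble (Nat.add (Nat.add (Nat.add (cv d j x) (rv d j (Nat.land u 1) i y))
        (cv d j c)) 96) w) (Nat.ble u 3))
    (Nat.ble (Nat.add (Nat.add (Nat.add (rv d j (Nat.land u 1) i x) (cv d j y))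
      (cv d j c)) 96) w) (Nat.ble u 1)

/-- the reply `r` at a vertex: `r % 8` is zero if there is no reply, otherwise it gives the
component, and `r / 8` is the number of the vertex in it -/
noncomputable def rpl (d : Dc) (j w : Nat) (x y c : AB) (r : Nat) : Bool :=
  Nat.rec (motive := fun _ => Bool)
    (Nat.ble (Nat.add (kv d j x y c) 48) (Nat.add w (Nat.mul 3 j)))
    (fun u _ => rp2 d j w x y c u (Nat.div r 8)) (Nat.mod r 8)

/-- at most one of the three branches is present -/
noncomputable def lwk (kx ky kc : Nat) : Bool :=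
  Bool.rec (ba (Nat.beq ky 0) (Nat.beq kc 0)) (bo (Nat.beq ky 0) (Nat.beq kc 0)) (Nat.beq kx 0)

/-- the check of the deletion of a vertex -/
noncomputable def dl2 (d : Dc) (j w kx lx ky ly kc lc : Nat) (x y c : AB) : Bool :=
  Nat.ble (Nat.add (Nat.add (val d j kx lx x) (val d j ky ly y)) (val d j kc lc c)) w

noncomputable def dlc (d : Dc) (j w h kx lx ky ly kc lc : Nat) (x y c : AB) : Bool :=
  Bool.rec (Bool.rec true (dl2 d j w kx lx ky ly kc lc x y c) (lwk kx ky kc))
    (dl2 d j w kx lx ky ly kc lc x y c) (Nat.beq h 3)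

/-- the type of the check of the vertices of a branch -/
abbrev WT : Type := Nat → Nat → AB → Nat → (Nat → Bool) → Bool

/-- the second child -/
noncomputable def wk3 (h kx lx ky kc lc : Nat) (x c : AB) (ihy : WT) (k : Nat → Bool)
    (q : Nat) : Bool :=
  Bool.rec (stp h kx lx kc lc x c fun k2 l2 c2 => ihy k2 l2 c2 q k) (k q) (Nat.beq ky 0)

/-- both children -/
noncomputable def wk2 (h kx lx ky ly kc lc : Nat) (x y c : AB)
    (ihx ihy : WT) (k : Nat → Bool) (q : Nat) : Bool :=
  Bool.rec (stp h ky ly kc lc y c fun k1 l1 c1 => ihx k1 l1 c1 q (wk3 h kx lx ky kc lc x c ihy k))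
    (wk3 h kx lx ky kc lc x c ihy k q) (Nat.beq kx 0)

/-- the check of all vertices of a branch -/
noncomputable def wk (d : Dc) (j w : Nat) (b : AB) : WT :=
  AB.rec (motive := fun _ => WT) (fun _ _ _ q k => k q)
    (fun h kx lx ky ly x y ihx ihy kc lc c q k =>
      ba (rpl d j w x y c (Nat.mod q 1024)) (ba (dlc d j w h kx lx ky ly kc lc x y c)
        (frc (Nat.div q 1024) (wk2 h kx lx ky ly kc lc x y c ihx ihy k)))) b

/-- the bound for a branch with marked root -/
noncomputable def mrk (d : Dc) (j kx lx ky ly : Nat) (x y : AB) : Nat :=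
  frc (mkh 3 kx lx ky ly) fun k => frc (Nat.add (Nat.add lx ly) 2) fun l =>
    val d j k l (.n 3 kx lx ky ly x y)

noncomputable def mv (d : Dc) (j : Nat) (b : AB) : Nat :=
  AB.rec (motive := fun _ => Nat) INF (fun _ kx lx ky ly x y _ _ => mrk d j kx lx ky ly x y) b

/-- the bound after cutting the edge above the vertex with number `i` -/
noncomputable def ct (d : Dc) (j : Nat) (b : AB) : Nat → Nat → Nat → AB → Nat :=
  AB.rec (motive := fun _ => Nat → Nat → Nat → AB → Nat) (fun _ _ _ _ => INF)
    (fun h kx lx ky ly x y ihx ihy i kc lc c =>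
      Nat.rec (motive := fun _ => Nat) (Nat.add (mrk d j kx lx ky ly x y) (mv d j c))
        (fun i' _ => Bool.rec (stp h kx lx kc lc x c (ihy (Nat.sub i' (Nat.div lx 3))))
          (stp h ky ly kc lc y c (ihx i'))
          (Nat.ble (Nat.succ (Nat.mul 3 (Nat.succ i'))) lx)) i) b

/-- the check of a search certificate -/
noncomputable def cks (d : Dc) (a : AB) (j w q : Nat) : Bool :=
  ba (Nat.ble (Nat.add w (Nat.mul 3 j)) 65000)
    (ba (Nat.ble (Nat.add (pv d j a (Nat.mod (Nat.div q 2) 128) 0 1 .e)
      (Nat.add 48 (Nat.mul 3 j))) w)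
      (frc (Nat.div q 256) fun q1 => wk d j w a 0 1 .e q1 fun _ => true))

/-- the check of a certificate -/
noncomputable def cki (d : Dc) (a : AB) (j w q : Nat) : Bool :=
  Bool.rec (Nat.ble (ct d j a (Nat.div q 2) 0 1 .e) w) (cks d a j w q) (Nat.beq (Nat.mod q 2) 0)

noncomputable def It.ok (d : Dc) (a : AB) (i : It) : Bool :=
  It.rec (motive := fun _ => Bool) true (fun j w q _ ih => ba (cki d a j w q) ih) i

/-- decode two branches and join them -/
noncomputable def dc2 {R : Type} (h : Nat) (ih : Nat → (Nat → Nat → AB → Nat → R) → R) (q : Nat)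
    (k : Nat → Nat → AB → Nat → R) : R :=
  ih q fun kx lx x q2 => ih q2 fun ky ly y q3 => stp h kx lx ky ly x y fun kk l a => k kk l a q3

noncomputable def tkn (t : Nat) (ih : Nat → (Nat → Nat → AB → Nat → Bool) → Bool)
    (k : Nat → Nat → AB → Nat → Bool) (q : Nat) : Bool :=
  Nat.rec (motive := fun _ => Bool) (k 0 1 .e q)
    (fun t _ => Nat.rec (motive := fun _ => Bool) (dc2 2 ih q k)
      (fun t _ => Nat.rec (motive := fun _ => Bool) (dc2 3 ih q k)
        (fun _ _ => k 8 4 (.n 2 0 1 0 1 .e .e) q) t) t) t

/-- decode a branch, two bits for a vertex or an empty branch -/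
noncomputable def dec (f : Nat) : Nat → (Nat → Nat → AB → Nat → Bool) → Bool :=
  Nat.rec (motive := fun _ => Nat → (Nat → Nat → AB → Nat → Bool) → Bool) (fun _ _ => false)
    (fun _ ih q k => frc (Nat.div q 4) (tkn (Nat.mod q 4) ih k)) f

/-- the check of an entry -/
noncomputable def eok (d : Dc) (k b : Nat) (i : It) : Bool :=
  dec 200 b fun kk l a _ => ba (Nat.beq (ky l a) k) (ba (Nat.ble 1 kk) (It.ok d a i))

/-- all entries of a part have been checked -/
noncomputable def Dc.okb (d t : Dc) : Bool :=
  Dc.rec (motive := fun _ => Bool) true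
    (fun k b i _ _ ihl ihr => ba (eok d k b i) (ba ihl ihr)) t

/-- all entries of a part have been checked -/
def Dc.ok (d t : Dc) : Prop :=
  Dc.rec (motive := fun _ => Prop) True
    (fun k b i _ _ ihl ihr => eok d k b i = true ∧ ihl ∧ ihr) t

/-- decode a branch from its code `q`; the argument is the number of the bits that are left -/
noncomputable def dcd (q f : Nat) : Nat → (Nat → Nat → AB → Nat → Nat) → Nat :=
  Nat.rec (motive := fun _ => Nat → (Nat → Nat → AB → Nat → Nat) → Nat) (fun _ _ => INF)
    (fun _ ih p k => Nat.rec (motive := fun _ => Nat) INF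
      (fun p1 _ => Bool.rec (k 0 1 .e p1)
        (Nat.rec (motive := fun _ => Nat) INF
          (fun p2 _ => Bool.rec (dc2 2 ih p2 k) (dc2 3 ih p2 k)
            (Nat.beq (Nat.land (Nat.shiftRight q p2) 1) 1)) p1)
        (Nat.beq (Nat.land (Nat.shiftRight q p1) 1) 1)) p) f

/-- one step of the computation of the length of a number -/
noncomputable def bl1 (s q a : Nat) (f : Nat → Nat → Nat) : Nat :=
  frc (Nat.shiftRight q s) fun q1 => Nat.rec (motive := fun _ => Nat) (f q a)
    (fun _ _ => frc (Nat.add a s) (f q1)) q1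

/-- the bound for the closed branch with code `q` -/
noncomputable def vx (d : Dc) (q : Nat) : Nat :=
  bl1 256 q 1 fun q1 a => bl1 128 q1 a fun q1 a => bl1 64 q1 a fun q1 a => bl1 32 q1 a
    fun q1 a => bl1 16 q1 a fun q1 a => bl1 8 q1 a fun q1 a => bl1 4 q1 a fun q1 a =>
    bl1 2 q1 a fun q1 a => bl1 1 q1 a fun _ a =>
    dcd q 200 a fun k l b _ => Bool.rec INF (val d 24 k l b) (Nat.beq k q)

end Pool.Agent.Helper91.VZ
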