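import Pool.Agent.Helper91.VZ.Defs

/-!
The keys determine the closed branches up to re-rooting.
-/

namespace Pool.Agent.Helper91.VZ

open Pool.Agent.Helper66.IL
open Pool.Agent.Helper66.ML (pc hd mkc ln ln_pc code code_n code_e code_zero code_inj mkc_cases
  mkc_ne_zero pc_inj PF PF_code PF_zero)

theorem ba_true {a b : Bool} (h : ba a b = true) : a = true ∧ b = true := by
  cases a
  · exact absurd h (by simp [ba])
  · exact ⟨rfl, h⟩

/-- the mark -/
def mk (h : ℕ) : Bool := Nat.beq h 3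

/-- forget codes -/
def er : AB → MB
  | .e => .e
  | .n h _ _ _ _ x y => .n (mk h) (er x) (er y)

/-- the codes and lengths are correct -/
def ok : AB → Prop
  | .e => True
  | .n h kx lx ky ly x y => (h = 2 ∨ h = 3) ∧ (kx = code (er x) ∧ lx = ln kx ∧ ok x) ∧
      (ky = code (er y) ∧ ly = ln ky ∧ ok y)

/-- a branch with its code and the length of the code -/
def G (k l : ℕ) (a : AB) : Prop := k = code (er a) ∧ l = ln k ∧ ok a

theorem G_e : G 0 1 .e := ⟨rfl, rfl, trivial⟩

theorem frc_eq {R : Type} (n : ℕ) (f : ℕ → R) : frc n f = f n := by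
  cases n <;> rfl

theorem stp_eq {R : Type} (h ky ly kc lc : ℕ) (y c : AB) (f : ℕ → ℕ → AB → R) :
    stp h ky ly kc lc y c f = f (mkh h ky ly kc lc) (ly + lc + 2) (.n h ky ly kc lc y c) := by
  unfold stp
  rw [frc_eq, frc_eq]
  rfl

theorem pk_eq {h a la b lb : ℕ} (ha : la = ln a) (hb : lb = ln b) :
    pk h a la b lb = pc h a b := by
  subst ha hb
  rfl

theorem hd_mk {h : ℕ} (hh : h = 2 ∨ h = 3) : hd (mk h) = h := by
  rcases hh with rfl | rfl <;> rfl

theorem pc_leaf : pc 2 0 0 = 8 := by decide +kernel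

theorem mkh_eq {h a la b lb : ℕ} (hh : h = 2 ∨ h = 3) (ha : la = ln a) (hb : lb = ln b) :
    mkh h a la b lb = mkc (mk h) a b := by
  unfold mkh mkc
  rw [pk_eq ha hb, pk_eq hb ha, hd_mk hh, pc_leaf]

theorem ln_mkc (m : Bool) (x y : MB) :
    ln (mkc m (code x) (code y)) = ln (code x) + ln (code y) + 2 := by
  obtain ⟨m', -, h | h⟩ := mkc_cases m (code x) (code y)
  · rw [h, ln_pc]
  · rw [h, ln_pc]; omega

theorem G_mk {h kx lx ky ly : ℕ} {x y : AB} (hh : h = 2 ∨ h = 3) (hx : G kx lx x)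
    (hy : G ky ly y) : G (mkh h kx lx ky ly) (lx + ly + 2) (.n h kx lx ky ly x y) := by
  obtain ⟨rfl, rfl, hx⟩ := hx
  obtain ⟨rfl, rfl, hy⟩ := hy
  have e : mkh h (code (er x)) (ln (code (er x))) (code (er y)) (ln (code (er y))) =
      mkc (mk h) (code (er x)) (code (er y)) := mkh_eq hh rfl rfl
  refine ⟨?_, ?_, hh, ⟨rfl, rfl, hx⟩, ⟨rfl, rfl, hy⟩⟩
  · rw [e]; rfl
  · rw [e, ln_mkc]

theorem G_zero {k l : ℕ} {a : AB} (h : G k l a) (hk : k = 0) : a = .e := by
  have h1 := code_zero (h.1.symm.trans hk)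
  cases a with
  | e => rfl
  | n _ _ _ _ _ _ _ => exact absurd h1 (by simp [er])

theorem er_e {a : AB} (h : er a = .e) : a = .e := by
  cases a with
  | e => rfl
  | n _ _ _ _ _ _ _ => exact absurd h (by simp [er])

/-- the number is the key of the position -/
def NF (k : ℕ) (X : Multiset K) : Prop :=
  (∃ m x y c, k = pc (hd m) (mkc false (code x) (code y)) (code c) ∧ PEq {(.n m x y, c)} X) ∨
    ∃ b c, k = pc (hd false) 0 (mkc false (code b) (code c)) ∧ PEq {(b, c)} X

theorem NF.congr {k : ℕ} {X Y : Multiset K} (h : NF k X) (h' : PEq X Y) : NF k Y := by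
  rcases h with ⟨m, x, y, c, h1, h2⟩ | ⟨b, c, h1, h2⟩
  · exact Or.inl ⟨m, x, y, c, h1, h2.trans h'⟩
  · exact Or.inr ⟨b, c, h1, h2.trans h'⟩

theorem pair_inj {x y x' y' : MB}
    (h : mkc false (code x) (code y) = mkc false (code x') (code y')) :
    (BEq x x' ∧ BEq y y') ∨ (BEq x y' ∧ BEq y x') := by
  obtain ⟨m1, -, h1⟩ := mkc_cases false (code x) (code y)
  obtain ⟨m2, -, h2⟩ := mkc_cases false (code x') (code y')
  rcases h1 with h1 | h1 <;> rcases h2 with h2 | h2 <;> rw [h1, h2] at h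
  · obtain ⟨-, h3, h4⟩ := pc_inj (PF_code x) (PF_code y) h
    exact Or.inl ⟨code_inj h3, code_inj h4⟩
  · obtain ⟨-, h3, h4⟩ := pc_inj (PF_code x) (PF_code y) h
    exact Or.inr ⟨code_inj h3, code_inj h4⟩
  · obtain ⟨-, h3, h4⟩ := pc_inj (PF_code y) (PF_code x) h
    exact Or.inr ⟨code_inj h4, code_inj h3⟩
  · obtain ⟨-, h3, h4⟩ := pc_inj (PF_code y) (PF_code x) h
    exact Or.inl ⟨code_inj h4, code_inj h3⟩

theorem BEq.snd {c c' : MB} (b : MB) (h : BEq c c') : PEq {(b, c)} {(b, c')} :=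
  (PEq.sig b c).trans ((h b).trans (PEq.sig c' b))

theorem NF_inj {k : ℕ} {X Y : Multiset K} (h : NF k X) (h' : NF k Y) : PEq X Y := by
  rcases h with ⟨m, x, y, c, h1, h2⟩ | ⟨b, c, h1, h2⟩ <;>
    rcases h' with ⟨m', x', y', c', h3, h4⟩ | ⟨b', c', h3, h4⟩
  · rw [h1, ← code_n false x y, ← code_n false x' y'] at h3
    obtain ⟨e1, e2, e3⟩ := pc_inj (PF_code _) (PF_code _) h3
    rw [code_n, code_n] at e2
    have hc := code_inj e3
    subst e1
    have key : PEq {(MB.n m x y, c)} {(MB.n m x' y', c')} := by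
      rcases pair_inj e2 with ⟨h5, h6⟩ | ⟨h5, h6⟩
      · exact (BEq.n m h5 h6 c).trans (BEq.snd _ hc)
      · exact ((BEq.n m h5 h6 c).trans (PEq.sw m y' x' c)).trans (BEq.snd _ hc)
    exact h2.symm.trans (key.trans h4)
  · exfalso
    rw [h1, ← code_n false x y, ← code_n false b' c'] at h3
    obtain ⟨-, e2, -⟩ := pc_inj PF_zero (PF_code _) h3.symm
    rw [code_n] at e2
    exact mkc_ne_zero _ _ _ e2.symm
  · exfalso
    rw [h1, ← code_n false x' y', ← code_n false b c] at h3
    obtain ⟨-, e2, -⟩ := pc_inj PF_zero (PF_code _) h3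
    rw [code_n] at e2
    exact mkc_ne_zero _ _ _ e2.symm
  · rw [h1, ← code_e, ← code_n false b c, ← code_n false b' c'] at h3
    obtain ⟨-, -, e3⟩ := pc_inj (PF_code _) (PF_code _) h3
    rw [code_n, code_n] at e3
    have key : PEq {(b, c)} {(b', c')} := by
      rcases pair_inj e3 with ⟨h5, h6⟩ | ⟨h5, h6⟩
      · exact (h5 c).trans (BEq.snd _ h6)
      · exact ((h5 c).trans (BEq.snd _ h6)).trans (PEq.sig _ _)
    exact h2.symm.trans (key.trans h4)

theorem perm1 (m : Bool) (x y c : MB) : PEq {(.n m x c, y)} {(.n m x y, c)} :=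
  (PEq.rho m x c y).trans ((BEq.snd x (BEq.sw m c y)).trans (PEq.rho m x y c).symm)

theorem perm2 (m : Bool) (x y c : MB) : PEq {(.n m y c, x)} {(.n m x y, c)} :=
  ((PEq.rho m x y c).trans (PEq.sig _ _)).symm

/-- the key at a vertex in terms of codes -/
theorem kyv_NF (m : Bool) (x y c : MB) : NF (kyv (hd m) (code x) (ln (code x)) (code y)
    (ln (code y)) (code c) (ln (code c))) {(.n m x y, c)} := by
  have hl : ∀ x y z : MB, pk (hd m) (mkh 2 (code x) (ln (code x)) (code y) (ln (code y)))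
      (ln (code x) + ln (code y) + 2) (code z) (ln (code z)) =
      pc (hd m) (mkc false (code x) (code y)) (code z) := by
    intro x y z
    have e : mkh 2 (code x) (ln (code x)) (code y) (ln (code y)) =
      mkc false (code x) (code y) := mkh_eq (Or.inl rfl) rfl rfl
    rw [e, pk_eq (ln_mkc false x y).symm rfl]
  have h1 : NF (pk (hd m) (mkh 2 (code x) (ln (code x)) (code y) (ln (code y)))
      (ln (code x) + ln (code y) + 2) (code c) (ln (code c))) {(.n m x y, c)} :=
    Or.inl ⟨m, x, y, c, hl x y c, PEq.refl _⟩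
  have h2 : NF (pk (hd m) (mkh 2 (code x) (ln (code x)) (code c) (ln (code c)))
      (ln (code x) + ln (code c) + 2) (code y) (ln (code y))) {(.n m x y, c)} :=
    Or.inl ⟨m, x, c, y, hl x c y, perm1 m x y c⟩
  have h3 : NF (pk (hd m) (mkh 2 (code y) (ln (code y)) (code c) (ln (code c)))
      (ln (code y) + ln (code c) + 2) (code x) (ln (code x))) {(.n m x y, c)} :=
    Or.inl ⟨m, y, c, x, hl y c x, perm2 m x y c⟩
  unfold kyv
  cases Nat.ble (code c) (code x)
  · cases Nat.ble (code y) (code x)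
    · exact h3
    · exact h2
  · cases Nat.ble (code c) (code y)
    · cases Nat.ble (code y) (code x)
      · exact h3
      · exact h2
    · exact h1

theorem keyV_NF {h : ℕ} (hh : h = 2 ∨ h = 3) (x y c : MB) :
    NF (keyV h (code x) (ln (code x)) (code y) (ln (code y)) (code c) (ln (code c)))
    {(.n (mk h) x y, c)} := by
  unfold keyV
  cases h0 : Nat.beq (Nat.add (code x) (Nat.add (code y) (code c))) 0 with
  | false =>
    have := kyv_NF (mk h) x y c
    rw [hd_mk hh] at this
    exact this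
  | true =>
    have h1 : code x + (code y + code c) = 0 := Nat.eq_of_beq_eq_true h0
    have hx := code_zero (b := x) (by omega)
    have hy := code_zero (b := y) (by omega)
    subst hx hy
    exact (kyv_NF false .e .e c).congr (PEq.lf false (mk h) c)

theorem keyE_NF (b c : MB) : NF (keyE (code b) (ln (code b)) (code c) (ln (code c)))
    {(b, c)} := by
  have e : keyE (code b) (ln (code b)) (code c) (ln (code c)) =
      pc (hd false) 0 (mkc false (code b) (code c)) := by
    unfold keyE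
    have e : mkh 2 (code b) (ln (code b)) (code c) (ln (code c)) =
      mkc false (code b) (code c) := mkh_eq (Or.inl rfl) rfl rfl
    rw [e]
    exact pk_eq (a := 0) (la := 1) rfl (ln_mkc false b c).symm
  exact Or.inr ⟨b, c, e, PEq.refl _⟩

/-- the key of a tree -/
theorem walk_NF {N : ℕ} (hN : 3 ≤ N) : ∀ (b : AB) (kc lc : ℕ) (c : AB), ok b → G kc lc c →
    b ≠ .e → NF (walk N b kc lc c) {(er b, er c)} := by
  intro b
  induction b with
  | e => intro kc lc c _ _ h; exact absurd rfl h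
  | n h kx lx ky ly x y ihx ihy =>
    intro kc lc c hb hc _
    obtain ⟨hh, hx, hy⟩ := hb
    have hx' : G kx lx x := hx
    have hy' : G ky ly y := hy
    have e : walk N (.n h kx lx ky ly x y) kc lc c = Bool.rec (motive := fun _ => ℕ)
        (Bool.rec (motive := fun _ => ℕ) (fin N h kx lx ky ly kc lc)
          (stp h kx lx kc lc x c (walk N y)) (Nat.ble N (Nat.mul 2 ly)))
        (stp h ky ly kc lc y c (walk N x)) (Nat.ble N (Nat.mul 2 lx)) := rfl
    rw [e]
    have hne : ∀ {k l : ℕ} {a : AB}, G k l a → Nat.ble N (Nat.mul 2 l) = true → a ≠ .e := by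
      rintro k l a ⟨h1, h2, -⟩ h3 rfl
      have h4 : N ≤ 2 * l := Nat.le_of_ble_eq_true h3
      have h5 : l = 1 := by rw [h2, h1]; rfl
      omega
    cases h1 : Nat.ble N (Nat.mul 2 lx) with
    | true =>
      show NF (stp h ky ly kc lc y c (walk N x)) _
      rw [stp_eq]
      exact (ihx _ _ _ hx'.2.2 (G_mk hh hy' hc) (hne hx' h1)).congr (PEq.rho _ _ _ _).symm
    | false =>
      cases h2 : Nat.ble N (Nat.mul 2 ly) with
      | true =>
        show NF (stp h kx lx kc lc x c (walk N y)) _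
        rw [stp_eq]
        exact (ihy _ _ _ hy'.2.2 (G_mk hh hx' hc) (hne hy' h2)).congr
          ((PEq.rho _ _ _ _).symm.trans (PEq.sw _ _ _ _))
      | false =>
        show NF (fin N h kx lx ky ly kc lc) _
        have two : ∀ {kx lx ky ly kc lc : ℕ} {x y c : AB}, G kx lx x → G ky ly y → G kc lc c →
            NF (keyE kx lx (mkh h ky ly kc lc) (Nat.add (Nat.add ly lc) 2))
              {(er x, .n (mk h) (er y) (er c))} := by
          intro kx lx ky ly kc lc x y c hx hy hc
          obtain ⟨g1, g2, g3⟩ := G_mk hh hy hc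
          have g2' : Nat.add (Nat.add ly lc) 2 = ln (mkh h ky ly kc lc) := g2
          rw [g2', hx.2.1, g1, hx.1]
          exact keyE_NF _ _
        unfold fin
        cases Nat.beq (Nat.succ (Nat.mul 2 lx)) N with
        | true => exact (two hx' hy' hc).congr (PEq.rho _ _ _ _).symm
        | false =>
          cases Nat.beq (Nat.succ (Nat.mul 2 ly)) N with
          | true =>
            exact (two hy' hx' hc).congr ((PEq.rho _ _ _ _).symm.trans (PEq.sw _ _ _ _))
          | false =>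
            show NF (keyV h kx lx ky ly kc lc) _
            rw [hx'.2.1, hy'.2.1, hc.2.1, hx'.1, hy'.1, hc.1]
            exact keyV_NF hh _ _ _

theorem ln_pos (k : ℕ) : 1 ≤ ln k := Nat.succ_le_succ (Nat.zero_le _)

theorem ky_NF {k l : ℕ} {a : AB} (h : G k l a) (h0 : a ≠ .e) : NF (ky l a) {(er a, .e)} := by
  unfold ky
  rw [frc_eq]
  refine walk_NF ?_ a 0 1 .e h.2.2 G_e h0
  have h1 := ln_pos k
  have h2 := h.2.1
  show 3 ≤ l + 2
  omega

/-- Closed branches with the same key. -/
theorem ky_inj {k k' l l' : ℕ} {a a' : AB} (ha : G k l a) (ha' : G k' l' a') (h0 : a ≠ .e)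
    (h0' : a' ≠ .e) (h : ky l a = ky l' a') : PEq {(er a, .e)} {(er a', .e)} := by
  have h1 := ky_NF ha h0
  have h2 := ky_NF ha' h0'
  rw [← h] at h2
  exact NF_inj h1 h2

end Pool.Agent.Helper91.VZ
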